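import Mathlib
import Pool.Agent.W612.WSL.Unit

/-!
# The invariant `Φ` is additive; the units of `wSL_n^sc` modulo the braids
-/

set_option autoImplicit false

namespace Pool.Agent.Y464.WU

open Pool.Agent.W612.WSL

variable {n : ℕ}

theorem sc_gauss (i j : Fin n) {w : List (End n)} (h : IsGauss w) : sc i j w = 0 := by
  have hnd : w.Nodup := List.Nodup.of_map _ h.1
  have h1 : sc i j w = ∑ x ∈ w.toFinset, co i j x := by
    unfold sc
    rw [List.sum_toFinset _ hnd]
  rw [h1]
  refine Finset.sum_involution (fun x _ => (x.1, !x.2)) ?_ ?_ ?_ ?_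
  · intro x hx
    have := co_not i j x.1 x.2
    rw [this]
    simp
  · intro x hx _ he
    have := congrArg Prod.snd he
    simp at this
  · intro x hx
    rw [List.mem_toFinset] at hx ⊢
    exact h.2 x hx
  · intro x hx
    simp

theorem sh_map (i j : Fin n) (g : ℕ → ℕ) (w : List (End n)) :
    sh i j (w.map (ren g)) = sh i j w := by
  simp only [sh, List.map_map]
  rfl

theorem Φ_stack (i j : Fin n) (v : List (End n)) {w : List (End n)} (hw : IsGauss w) :
    Φ i j (stack v w) = Φ i j v + Φ i j w := by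
  unfold Φ stack
  rw [ph_append, ph_append, ph_map, ph_map, ph_map, ph_map, sc_map, sc_map, sc_gauss i j hw,
    sc_gauss j i hw]
  ring

/-- the invariant on classes -/
def Ph (i j : Fin n) (hij : i ≠ j) : WSLsc n → ℤ :=
  Quot.lift (fun v : Diagram n => Φ i j v.1) fun _ _ h => Φ_move i j hij h

theorem Ph_cls (i j : Fin n) (hij : i ≠ j) (v : Diagram n) : Ph i j hij (cls v) = Φ i j v.1 := rfl

theorem Ph_mul (i j : Fin n) (hij : i ≠ j) (a b : WSLsc n) :
    Ph i j hij (a * b) = Ph i j hij a + Ph i j hij b := by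
  induction a using Quot.inductionOn with
  | h v =>
  induction b using Quot.inductionOn with
  | h w => exact Φ_stack i j v.1 w.2

theorem Ph_one (i j : Fin n) (hij : i ≠ j) : Ph i j hij (1 : WSLsc n) = 0 := by
  have := Ph_mul i j hij (1 : WSLsc n) 1
  rw [mul_one] at this
  omega

/-- The pairs `i < j` of strands. -/
abbrev Pairs (n : ℕ) : Type := {p : Fin n × Fin n // p.1 < p.2}

/-- The homomorphism to `ℤ ^ (n choose 2)`. -/
def hom (n : ℕ) : (WSLsc n)ˣ →* Multiplicative (Pairs n → ℤ) where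
  toFun u := Multiplicative.ofAdd fun p => Ph p.1.1 p.1.2 p.2.ne (u : WSLsc n)
  map_one' := by
    apply Multiplicative.toAdd.injective
    funext p
    show Ph p.1.1 p.1.2 p.2.ne ((1 : (WSLsc n)ˣ) : WSLsc n) = 0
    rw [Units.val_one]
    exact Ph_one _ _ _
  map_mul' := by
    intro a b
    apply Multiplicative.toAdd.injective
    funext p
    show Ph p.1.1 p.1.2 p.2.ne ((a * b : (WSLsc n)ˣ) : WSLsc n) =
      Ph p.1.1 p.1.2 p.2.ne (a : WSLsc n) + Ph p.1.1 p.1.2 p.2.ne (b : WSLsc n)
    rw [Units.val_mul]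
    exact Ph_mul _ _ _ _ _

theorem hom_braid {n : ℕ} (u : (WSLsc n)ˣ) (D : Diagram n) (hD : IsMonotone D.1)
    (hu : (u : WSLsc n) = cls D) : hom n u = 1 := by
  apply Multiplicative.toAdd.injective
  funext p
  show Ph p.1.1 p.1.2 p.2.ne (u : WSLsc n) = 0
  rw [hu, Ph_cls]
  exact Φ_monotone _ _ p.2.ne hD

theorem hom_unit {n : ℕ} (p : Pairs n) :
    hom n (theUnit p.1.1 p.1.2 p.2.ne) = Multiplicative.ofAdd (Pi.single p 1) := by
  apply Multiplicative.toAdd.injective
  funext q
  show Φ q.1.1 q.1.2 (U p.1.1 p.1.2 true) = Pi.single (M := fun _ => ℤ) p 1 q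
  by_cases h : q = p
  · subst h
    rw [Φ_U _ _ q.2.ne, Pi.single_eq_same]
  · rw [Pi.single_eq_of_ne h]
    obtain ⟨⟨i, j⟩, hij⟩ := p
    obtain ⟨⟨k, l⟩, hkl⟩ := q
    simp only at hij hkl
    have h1 : ¬ (j = l ∧ i = k) := by
      rintro ⟨rfl, rfl⟩
      exact h rfl
    have h2 : ¬ (j = k ∧ i = l) := by
      rintro ⟨rfl, rfl⟩
      exact absurd hij (not_lt.2 hkl.le)
    have h3 : ¬ (i = l ∧ i = k) := by
      rintro ⟨rfl, rfl⟩
      exact lt_irrefl _ hkl
    have h4 : ¬ (i = k ∧ i = l) := by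
      rintro ⟨rfl, rfl⟩
      exact lt_irrefl _ hkl
    simp only [Φ, ph, U, hd, sc, hA, sA, List.map_cons, List.map_nil, List.sum_cons, List.sum_nil]
    simp [h1, h2, h3, h4]

theorem hom_surjective (n : ℕ) : Function.Surjective (hom n) := by
  intro t
  have h : Multiplicative.ofAdd (Multiplicative.toAdd t) ∈ (hom n).range := by
    have e1 : Multiplicative.toAdd t =
        ∑ p : Pairs n, (Multiplicative.toAdd t p) • Pi.single (M := fun _ => ℤ) p 1 := by
      funext q
      simp [Finset.sum_apply, Pi.single_apply]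
    rw [e1, ofAdd_sum]
    refine Subgroup.prod_mem _ fun p _ => ?_
    rw [ofAdd_zsmul]
    refine Subgroup.zpow_mem _ ?_ _
    exact MonoidHom.mem_range.2 ⟨_, hom_unit p⟩
  obtain ⟨u, hu⟩ := h
  exact ⟨u, hu⟩

theorem card_pairs (n : ℕ) : Fintype.card (Pairs n) = n.choose 2 := by
  have e : Pairs n ≃ (j : Fin n) × Fin (j : ℕ) :=
    { toFun := fun p => ⟨p.1.2, ⟨p.1.1, p.2⟩⟩
      invFun := fun q => ⟨(⟨q.2, q.2.2.trans q.1.2⟩, q.1), q.2.2⟩
      left_inv := fun _ => rfl
      right_inv := fun _ => rfl }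
  rw [Fintype.card_congr e, Fintype.card_sigma]
  simp only [Fintype.card_fin]
  rw [Fin.sum_univ_eq_sum_range (fun j => j) n, Finset.sum_range_id, Nat.choose_two_right]

/-- the braids -/
def braids (n : ℕ) : Set (WSLsc n)ˣ :=
  {u | ∃ D : Diagram n, IsMonotone D.1 ∧ (u : WSLsc n) = cls D}

theorem not_generated (n : ℕ) (S : Finset (WSLsc n)ˣ) (hS : S.card < n.choose 2) :
    Subgroup.normalClosure (braids n ∪ (S : Set (WSLsc n)ˣ)) ≠ ⊤ := by
  intro htop
  classical
  -- the images of the elements of `S` span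
  let V : Submodule ℤ (Pairs n → ℤ) :=
    Submodule.span ℤ ((S.image fun u => Multiplicative.toAdd (hom n u) : Finset _) :
      Set (Pairs n → ℤ))
  let K : Subgroup (WSLsc n)ˣ := (AddSubgroup.toSubgroup V.toAddSubgroup).comap (hom n)
  have hmem : ∀ u, u ∈ K ↔ Multiplicative.toAdd (hom n u) ∈ V := fun u => Iff.rfl
  have hK : K.Normal := inferInstance
  have hsub : braids n ∪ (S : Set (WSLsc n)ˣ) ⊆ K := by
    rintro u (⟨D, hD, hu⟩ | hu)
    · show u ∈ K
      rw [hmem, hom_braid u D hD hu]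
      exact V.zero_mem
    · show u ∈ K
      rw [hmem]
      refine Submodule.subset_span ?_
      simp only [Finset.coe_image, Set.mem_image]
      exact ⟨u, hu, rfl⟩
  have hle : Subgroup.normalClosure (braids n ∪ (S : Set (WSLsc n)ˣ)) ≤ K :=
    Subgroup.normalClosure_le_normal hsub
  rw [htop] at hle
  have hV : V = ⊤ := by
    rw [eq_top_iff]
    intro t _
    obtain ⟨u, hu⟩ := hom_surjective n (Multiplicative.ofAdd t)
    have := (hmem u).1 (hle (Subgroup.mem_top u))
    rw [hu] at this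
    exact this
  have h1 : Module.finrank ℤ V ≤ (S.image fun u => Multiplicative.toAdd (hom n u)).card :=
    finrank_span_finset_le_card _
  rw [hV, finrank_top, Module.finrank_fintype_fun_eq_card, card_pairs] at h1
  have h2 := Finset.card_image_le (s := S) (f := fun u => Multiplicative.toAdd (hom n u))
  omega

end Pool.Agent.Y464.WU
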